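import Pool.Agent.H47.ALLH.Stmts

/-!
# ALLH, module CEL: cells
-/

set_option autoImplicit false

namespace Pool.ALLH

open Finset Pool.Agent.H98.ABCR Pool.SHA

theorem cel_thm : S_GCO → S_CEL := by
  classical
  intro hG δ hδ hδ1
  refine ⟨(2 : ℝ) ^ (4 / δ + 1), ?_, ?_⟩
  · exact Real.one_le_rpow (by norm_num) (by positivity)
  intro K h0 hK hh0
  have hC1 : (1 : ℝ) ≤ (2 : ℝ) ^ (4 / δ + 1) := Real.one_le_rpow (by norm_num) (by positivity)
  rcases K.eq_empty_or_nonempty with rfl | hne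
  · refine ⟨∅, by rw [card_empty, Nat.cast_zero]; positivity, ?_⟩
    intro f hf
    simp only [sum_empty] at hf
    nlinarith
  have hc : (0 : ℝ) < K.card := by exact_mod_cast card_pos.2 hne
  set Δ : ℝ := δ * h0 / (2 * K.card) with hΔ
  have hΔ0 : 0 < Δ := by positivity
  set q : ℕ := ⌊4 * (K.card : ℝ) / δ⌋₊ with hq
  set G : Finset (↥K → ℕ) :=
    (Fintype.piFinset fun _ : ↥K => range (q + 1)).filter (fun g => ∑ i, g i ≤ q) with hGd
  have hGc : G.card ≤ 2 ^ (q + Fintype.card ↥K) :=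
    hG ↥K q G (fun g hg => (mem_filter.1 hg).2)
  rw [Fintype.card_coe] at hGc
  have hlog : ∀ t ∈ K, 0 < Real.log t := fun t ht =>
    Real.log_pos (by exact_mod_cast (hK t ht).one_lt)
  let Φ : (↥K → ℕ) → ℕ → ℕ := fun g t =>
    if h : t ∈ K then ⌈(g ⟨t, h⟩ : ℝ) * Δ / Real.log t⌉₊ else 0
  have hΦ : ∀ (g : ↥K → ℕ) (t : ℕ) (h : t ∈ K),
      Φ g t = ⌈(g ⟨t, h⟩ : ℝ) * Δ / Real.log t⌉₊ := fun g t h => dif_pos h
  refine ⟨G.image Φ, ?_, ?_⟩
  · have h1 : ((G.image Φ).card : ℝ) ≤ (2 : ℝ) ^ (q + K.card) := by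
      calc ((G.image Φ).card : ℝ) ≤ (G.card : ℝ) := by
            exact_mod_cast card_image_le
        _ ≤ _ := by exact_mod_cast hGc
    refine h1.trans ?_
    have h2 : ((2 : ℝ) ^ (4 / δ + 1)) ^ (K.card + 1) =
        (2 : ℝ) ^ ((4 / δ + 1) * ((K.card : ℝ) + 1)) := by
      rw [← Real.rpow_natCast, ← Real.rpow_mul (by norm_num)]
      push_cast
      rfl
    rw [h2, ← Real.rpow_natCast]
    refine Real.rpow_le_rpow_of_exponent_le (by norm_num) ?_
    push_cast
    have h3 : (q : ℝ) ≤ 4 * (K.card : ℝ) / δ := Nat.floor_le (by positivity)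
    have h4 : 4 * (K.card : ℝ) / δ = 4 / δ * K.card := by ring
    have h5 : 0 < 4 / δ := by positivity
    nlinarith
  · intro f hf1 hf2
    set n : ↥K → ℕ := fun t => ⌊(f t : ℝ) * Real.log (t : ℕ) / Δ⌋₊ with hn
    have hn1 : ∀ t : ↥K, (n t : ℝ) ≤ (f t : ℝ) * Real.log (t : ℕ) / Δ := fun t =>
      Nat.floor_le (div_nonneg (mul_nonneg (Nat.cast_nonneg _) (hlog t t.2).le) hΔ0.le)
    have hn2 : ∀ t : ↥K, (f t : ℝ) * Real.log (t : ℕ) / Δ < n t + 1 := fun t =>
      Nat.lt_floor_add_one _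
    have hsum : ∑ i, n i ≤ q := by
      rw [hq, Nat.le_floor_iff (by positivity)]
      push_cast
      calc ∑ i, (n i : ℝ) ≤ ∑ i : ↥K, (f i : ℝ) * Real.log (i : ℕ) / Δ :=
            sum_le_sum fun i _ => hn1 i
        _ = (∑ t ∈ K, (f t : ℝ) * Real.log t) / Δ := by
            rw [← sum_div]
            congr 1
            exact sum_coe_sort K (fun t => (f t : ℝ) * Real.log t)
        _ ≤ 2 * h0 / Δ := by gcongr
        _ = 4 * (K.card : ℝ) / δ := by
            rw [hΔ]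
            field_simp
            ring
    have hmem : n ∈ G := by
      rw [hGd, mem_filter, Fintype.mem_piFinset]
      refine ⟨fun i => ?_, hsum⟩
      rw [mem_range]
      have := single_le_sum (f := fun i => n i) (fun _ _ => Nat.zero_le _) (mem_univ i)
      omega
    refine ⟨Φ n, mem_image_of_mem _ hmem, ?_, ?_⟩
    · intro t ht
      rw [hΦ n t ht, Nat.ceil_le, div_le_iff₀ (hlog t ht)]
      have := hn1 ⟨t, ht⟩
      rw [le_div_iff₀ hΔ0] at this
      exact this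
    · have h1 : ∀ t ∈ K, (f t : ℝ) * Real.log t - Δ ≤ (Φ n t : ℝ) * Real.log t := by
        intro t ht
        rw [hΦ n t ht]
        have h2 := Nat.le_ceil ((n ⟨t, ht⟩ : ℝ) * Δ / Real.log t)
        rw [div_le_iff₀ (hlog t ht)] at h2
        have h3 := hn2 ⟨t, ht⟩
        rw [div_lt_iff₀ hΔ0] at h3
        simp only at h3
        nlinarith
      calc δ / 2 * h0 = δ * h0 - K.card * Δ := by
            rw [hΔ]
            field_simp
            ring
        _ ≤ ∑ t ∈ K, (f t : ℝ) * Real.log t - K.card * Δ := by linarith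
        _ = ∑ t ∈ K, ((f t : ℝ) * Real.log t - Δ) := by
            rw [sum_sub_distrib, sum_const, nsmul_eq_mul]
        _ ≤ _ := sum_le_sum h1

end Pool.ALLH
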